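import Mathlib
import Pool.Agent.R203.UE

/-!
# MP_0c3956_an: no syndetic set is a weak interpolation set of order 2 for uniquely ergodic systems
-/

set_option autoImplicit false

open MeasureTheory Filter Topology Set

namespace Pool.Agent.Results.MP_0c3956_an.NoSyndetic

universe u

/-- exactly one invariant Borel probability measure -/
def UniquelyErgodic {X : Type u} [MeasurableSpace X] (T : X → X) : Prop :=
  ∃! μ : Measure X, IsProbabilityMeasure μ ∧ MeasurePreserving T μ μ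

/-- `S` is a weak interpolation set of order `k` for the class of uniquely ergodic systems -/
def IsWeakInterpolation (k : ℕ) (S : Set ℕ) : Prop :=
  ∀ f : ℕ → ℕ, (∀ n ∈ S, f n < k) →
    ∃ (X : Type u) (_ : MetricSpace X) (_ : CompactSpace X) (_ : MeasurableSpace X)
      (_ : BorelSpace X) (T : X → X) (_ : Continuous T) (_ : UniquelyErgodic T) (x : X)
      (_ : Dense (range fun n : ℕ => T^[n] x)) (F : X → ℂ) (_ : Continuous F),
      ∀ n ∈ S, F (T^[n] x) = f n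

/-- `S ⊆ {1, 2, …}` has bounded gaps -/
def IsSyndetic (S : Set ℕ) : Prop :=
  ∃ L : ℕ, ∀ a : ℕ, 1 ≤ a → ∃ i < L, a + i ∈ S

/-- there is a binary sequence containing every finite word -/
lemma exists_rich : ∃ f : ℕ → Bool, ∀ (l : ℕ) (w : ℕ → Bool), ∃ a : ℕ, 1 ≤ a ∧
    ∀ m < l, f (a + m) = w m := by
  let dec : ℕ → List Bool × ℕ := fun k => (Encodable.decode k).getD ([], 0)
  refine ⟨fun n => (dec (Nat.log 2 n)).1.getD (n - 2 ^ Nat.log 2 n) false, ?_⟩
  intro l w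
  let ℓ : List Bool := (List.range l).map w
  let k : ℕ := Encodable.encode (ℓ, l)
  have hkl : l ≤ k := Nat.right_le_pair _ _
  have hk2 : k < 2 ^ k := Nat.lt_two_pow_self
  have hdec : dec k = (ℓ, l) := by simp [dec, k]
  refine ⟨2 ^ k, Nat.one_le_two_pow, fun m hm => ?_⟩
  have hlog : Nat.log 2 (2 ^ k + m) = k := by
    rw [Nat.log_eq_iff (by right; constructor <;> omega)]
    constructor
    · omega
    · rw [pow_succ]; omega
  simp only [hlog, hdec]
  rw [show 2 ^ k + m - 2 ^ k = m by omega]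
  simp [ℓ, List.getD_eq_getElem?_getD, hm]

/-! ### Exponential sums over `Z/Q` -/

section Parseval

/-- orthogonality -/
lemma geom_zero {Q : ℕ} (hQ : 0 < Q) {ζ : ℂ} (hζ : IsPrimitiveRoot ζ Q) {d : ℕ} (hd : 0 < d)
    (hdQ : d < Q) : ∑ t ∈ Finset.range Q, ζ ^ (t * d) = 0 := by
  have h1 : ζ ^ d ≠ 1 := hζ.pow_ne_one_of_pos_of_lt hd.ne' hdQ
  have h2 : (ζ ^ d - 1) * ∑ t ∈ Finset.range Q, (ζ ^ d) ^ t = 0 := by
    rw [mul_geom_sum, ← pow_mul, mul_comm, pow_mul, hζ.pow_eq_one, one_pow, sub_self]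
  have h3 := (mul_eq_zero.1 h2).resolve_left (sub_ne_zero.2 h1)
  rw [← h3]
  refine Finset.sum_congr rfl fun t _ => ?_
  rw [← pow_mul, mul_comm]

lemma parseval {Q : ℕ} (hQ : 0 < Q) {ζ : ℂ} (hζ : IsPrimitiveRoot ζ Q) (a : ℕ → ℝ) {k M : ℕ}
    (hk : 0 < k) (hM : k * M ≤ Q) :
    ∑ t ∈ Finset.range Q, ‖∑ n ∈ Finset.range M, (a n : ℂ) * ζ ^ (t * (k * n))‖ ^ 2 =
      Q * ∑ n ∈ Finset.range M, a n ^ 2 := by
  have hnorm : ‖ζ‖ = 1 := hζ.norm'_eq_one hQ.ne'
  have hconj : ∀ m : ℕ, ζ ^ m * (starRingEnd ℂ) (ζ ^ m) = 1 := by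
    intro m
    rw [Complex.mul_conj', norm_pow, hnorm]
    simp
  have key : ∀ n ∈ Finset.range M, ∀ m ∈ Finset.range M, n ≠ m →
      ∑ t ∈ Finset.range Q, ζ ^ (t * (k * n)) * (starRingEnd ℂ) (ζ ^ (t * (k * m))) = 0 := by
    have main : ∀ n m : ℕ, n < M → m < n →
        ∑ t ∈ Finset.range Q, ζ ^ (t * (k * n)) * (starRingEnd ℂ) (ζ ^ (t * (k * m))) = 0 := by
      intro n m hn hmn
      have hd : 0 < k * (n - m) := Nat.mul_pos hk (by omega)
      have hdQ : k * (n - m) < Q := by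
        have : k * (n - m) < k * M := Nat.mul_lt_mul_of_pos_left (by omega) hk
        omega
      rw [← geom_zero hQ hζ hd hdQ]
      refine Finset.sum_congr rfl fun t _ => ?_
      have e : t * (k * n) = t * (k * (n - m)) + t * (k * m) := by
        obtain ⟨c, rfl⟩ := Nat.exists_eq_add_of_lt hmn
        rw [show m + c + 1 - m = c + 1 by omega]
        ring
      rw [e, pow_add, mul_assoc, hconj, mul_one]
    intro n hn m hm hnm
    rcases lt_or_gt_of_ne hnm with h | h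
    · have := main m n (Finset.mem_range.1 hm) h
      have h2 := congrArg (starRingEnd ℂ) this
      rw [map_sum, map_zero] at h2
      rw [← h2]
      refine Finset.sum_congr rfl fun t _ => ?_
      rw [map_mul, Complex.conj_conj, mul_comm]
    · exact main n m (Finset.mem_range.1 hn) h
  have hC : ((∑ t ∈ Finset.range Q, ‖∑ n ∈ Finset.range M, (a n : ℂ) * ζ ^ (t * (k * n))‖ ^ 2 :
      ℝ) : ℂ) = ((Q * ∑ n ∈ Finset.range M, a n ^ 2 : ℝ) : ℂ) := by
    push_cast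
    have e1 : ∀ t, ((‖∑ n ∈ Finset.range M, (a n : ℂ) * ζ ^ (t * (k * n))‖ : ℂ)) ^ 2 =
        ∑ n ∈ Finset.range M, ∑ m ∈ Finset.range M, (a n : ℂ) * (a m : ℂ) *
          (ζ ^ (t * (k * n)) * (starRingEnd ℂ) (ζ ^ (t * (k * m)))) := by
      intro t
      rw [← Complex.mul_conj', map_sum, Finset.sum_mul_sum]
      refine Finset.sum_congr rfl fun n _ => Finset.sum_congr rfl fun m _ => ?_
      rw [map_mul, Complex.conj_ofReal]
      ring
    simp only [e1]
    rw [Finset.sum_comm, Finset.mul_sum]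
    refine Finset.sum_congr rfl fun n hn => ?_
    rw [Finset.sum_comm, Finset.sum_eq_single n]
    · rw [← Finset.mul_sum]
      simp only [hconj, Finset.sum_const, Finset.card_range, nsmul_eq_mul, mul_one]
      ring
    · intro m hm hmn
      rw [← Finset.mul_sum, key n hn m hm hmn.symm, mul_zero]
    · intro h; exact absurd hn h
  exact_mod_cast hC

end Parseval

/-! ### Smoothing -/

lemma shift_diff (a : ℕ → ℂ) (ha : ∀ n, ‖a n‖ ≤ 1) (L m : ℕ) :
    ‖∑ j ∈ Finset.range L, a j - ∑ j ∈ Finset.range L, a (j + m)‖ ≤ 2 * m := by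
  induction m with
  | zero => simp
  | succ m ih =>
    have e : ∑ j ∈ Finset.range L, a (j + m) - ∑ j ∈ Finset.range L, a (j + (m + 1)) =
        a m - a (L + m) := by
      rw [← Finset.sum_sub_distrib]
      have h := Finset.sum_range_sub' (fun j => a (j + m)) L
      rw [zero_add] at h
      rw [← h]
      refine Finset.sum_congr rfl fun j _ => ?_
      rw [show j + (m + 1) = j + 1 + m by ring]
    have e2 : ∑ j ∈ Finset.range L, a j - ∑ j ∈ Finset.range L, a (j + (m + 1)) =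
        (∑ j ∈ Finset.range L, a j - ∑ j ∈ Finset.range L, a (j + m)) + (a m - a (L + m)) := by
      rw [← e]; ring
    rw [e2]
    refine (norm_add_le _ _).trans ?_
    have h3 : ‖a m - a (L + m)‖ ≤ 2 := (norm_sub_le _ _).trans (by linarith [ha m, ha (L + m)])
    push_cast
    linarith

lemma smoothing (a : ℕ → ℂ) (ha : ∀ n, ‖a n‖ ≤ 1) {M : ℕ} (hM : 0 < M) (L : ℕ) :
    ‖∑ n ∈ Finset.range L, a n‖ ≤
      ∑ j ∈ Finset.range L, ‖1 / (M : ℂ) * ∑ n ∈ Finset.range M, a (j + n)‖ + 2 * M := by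
  have hM' : (0 : ℝ) < M := by exact_mod_cast hM
  have hMc : (M : ℂ) ≠ 0 := by exact_mod_cast hM.ne'
  have h1 : ‖(M : ℂ) * ∑ n ∈ Finset.range L, a n -
      ∑ j ∈ Finset.range L, ∑ n ∈ Finset.range M, a (j + n)‖ ≤ M * (2 * M) := by
    have e : (M : ℂ) * ∑ n ∈ Finset.range L, a n -
        ∑ j ∈ Finset.range L, ∑ n ∈ Finset.range M, a (j + n) =
        ∑ m ∈ Finset.range M, (∑ j ∈ Finset.range L, a j - ∑ j ∈ Finset.range L, a (j + m)) := by
      rw [Finset.sum_sub_distrib, Finset.sum_const, Finset.card_range, nsmul_eq_mul,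
        Finset.sum_comm]
    rw [e]
    refine (norm_sum_le _ _).trans ?_
    have : ∀ m ∈ Finset.range M,
        ‖∑ j ∈ Finset.range L, a j - ∑ j ∈ Finset.range L, a (j + m)‖ ≤ 2 * (M : ℝ) := by
      intro m hm
      refine (shift_diff a ha L m).trans ?_
      have : (m : ℝ) ≤ M := by exact_mod_cast (Finset.mem_range.1 hm).le
      linarith
    refine (Finset.sum_le_sum this).trans ?_
    rw [Finset.sum_const, Finset.card_range, nsmul_eq_mul]
  have h2 : ‖∑ n ∈ Finset.range L, a n -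
      ∑ j ∈ Finset.range L, 1 / (M : ℂ) * ∑ n ∈ Finset.range M, a (j + n)‖ ≤ 2 * M := by
    have e : (M : ℂ) * (∑ n ∈ Finset.range L, a n -
        ∑ j ∈ Finset.range L, 1 / (M : ℂ) * ∑ n ∈ Finset.range M, a (j + n)) =
        (M : ℂ) * ∑ n ∈ Finset.range L, a n -
        ∑ j ∈ Finset.range L, ∑ n ∈ Finset.range M, a (j + n) := by
      rw [mul_sub, Finset.mul_sum (Finset.range L) (fun j => 1 / (M : ℂ) * _)]
      congr 1
      refine Finset.sum_congr rfl fun j _ => ?_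
      rw [← mul_assoc, mul_one_div_cancel hMc, one_mul]
    rw [← e, norm_mul, Complex.norm_natCast] at h1
    exact le_of_mul_le_mul_left h1 hM'
  calc ‖∑ n ∈ Finset.range L, a n‖ = ‖(∑ n ∈ Finset.range L, a n -
        ∑ j ∈ Finset.range L, 1 / (M : ℂ) * ∑ n ∈ Finset.range M, a (j + n)) +
        ∑ j ∈ Finset.range L, 1 / (M : ℂ) * ∑ n ∈ Finset.range M, a (j + n)‖ := by
        rw [sub_add_cancel]
    _ ≤ 2 * M + ∑ j ∈ Finset.range L, ‖1 / (M : ℂ) * ∑ n ∈ Finset.range M, a (j + n)‖ :=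
        (norm_add_le _ _).trans (add_le_add h2 (norm_sum_le _ _))
    _ = _ := by ring

section Dyn

variable {X : Type u} [MetricSpace X] [CompactSpace X] [MeasurableSpace X] [BorelSpace X]

/-- the twisted averages -/
noncomputable def hh (T : X → X) (g : X → ℝ) (z : ℂ) (M k : ℕ) (y : X) : ℂ :=
  1 / (M : ℂ) * ∑ n ∈ Finset.range M, (g (T^[n] y) : ℂ) * z ^ (k * n)

lemma hh_continuous {T : X → X} (hT : Continuous T) {g : X → ℝ} (hg : Continuous g) (z : ℂ)
    (M k : ℕ) : Continuous (hh T g z M k) := by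
  unfold hh
  refine continuous_const.mul (continuous_finsetSum _ fun n _ => ?_)
  exact (Complex.continuous_ofReal.comp (hg.comp (hT.iterate n))).mul continuous_const

lemma integrable_of_cont {μ : Measure X} [IsProbabilityMeasure μ] {φ : X → ℝ}
    (h : Continuous φ) : Integrable φ μ :=
  h.integrable_of_hasCompactSupport (HasCompactSupport.of_compactSpace _)

/-- choice of the frequency -/
lemma exists_z {T : X → X} (hT : Continuous T) {μ : Measure X} [IsProbabilityMeasure μ]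
    {g : X → ℝ} (hg : Continuous g) (hg1 : ∀ x, |g x| ≤ 1) {G : ℕ} (hG : 0 < G) (D : ℕ)
    {b : ℝ} (hb : 0 < b) :
    ∃ z : ℂ, ‖z‖ = 1 ∧ (∀ d, 1 ≤ d → d < G → 1 / (G : ℝ) ≤ ‖z ^ d - 1‖) ∧
      ∃ M : ℕ, 0 < M ∧ ∀ k, 1 ≤ k → k ≤ D → ∫ y, ‖hh T g z M k y‖ ^ 2 ∂μ ≤ b := by
  obtain ⟨M0, hM0⟩ := exists_nat_gt (4 * (G : ℝ) * D / b)
  set M := M0 + 1 with hMdef
  have hM : 0 < M := Nat.succ_pos _
  have hMr : (0 : ℝ) < M := by exact_mod_cast hM
  have hMb : 4 * (G : ℝ) * D / M ≤ b := by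
    rw [div_le_iff₀ hMr]
    rw [div_lt_iff₀ hb] at hM0
    have : (M : ℝ) = M0 + 1 := by rw [hMdef]; push_cast; ring
    rw [this]
    nlinarith
  set P := (D + 1) * M with hP
  have hPpos : 0 < P := Nat.mul_pos (Nat.succ_pos _) hM
  set Q := 4 * G * P with hQ
  have hQpos : 0 < Q := Nat.mul_pos (Nat.mul_pos (by norm_num) hG) hPpos
  set ζ : ℂ := Complex.exp (2 * Real.pi * Complex.I / Q) with hζdef
  have hζ : IsPrimitiveRoot ζ Q := Complex.isPrimitiveRoot_exp Q hQpos.ne'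
  have hζ1 : ‖ζ‖ = 1 := hζ.norm'_eq_one hQpos.ne'
  have hQr : (0 : ℝ) < Q := by exact_mod_cast hQpos
  have hGr : (0 : ℝ) < G := by exact_mod_cast hG
  -- separation
  have hsep : ∀ t ∈ Finset.Icc P (2 * P), ∀ d, 1 ≤ d → d < G →
      1 / (G : ℝ) ≤ ‖(ζ ^ t) ^ d - 1‖ := by
    intro t ht d hd hdG
    obtain ⟨ht1, ht2⟩ := Finset.mem_Icc.1 ht
    have e : (ζ ^ t) ^ d = Complex.exp (Complex.I * ((2 * Real.pi * (t * d) / Q : ℝ) : ℂ)) := by
      rw [← pow_mul, hζdef, ← Complex.exp_nat_mul]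
      congr 1
      push_cast
      ring
    rw [e, Complex.norm_exp_I_mul_ofReal_sub_one, Real.norm_eq_abs]
    have e2 : 2 * Real.pi * (t * d) / Q / 2 = Real.pi * (t * d / Q : ℝ) := by ring
    rw [e2]
    have ht1r : (P : ℝ) ≤ t := by exact_mod_cast ht1
    have ht2r : (t : ℝ) ≤ 2 * P := by exact_mod_cast ht2
    have hdr : (1 : ℝ) ≤ d := by exact_mod_cast hd
    have hdGr : (d : ℝ) ≤ G := by exact_mod_cast hdG.le
    have hQe : (Q : ℝ) = 4 * G * P := by rw [hQ]; push_cast; ring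
    have hPr : (0 : ℝ) < P := by exact_mod_cast hPpos
    have h1 : 1 / (4 * (G : ℝ)) ≤ t * d / Q := by
      rw [div_le_div_iff₀ (by positivity) hQr, hQe]
      have : (P : ℝ) ≤ t * d := by nlinarith
      nlinarith
    have h2 : (t : ℝ) * d / Q ≤ 1 / 2 := by
      rw [div_le_div_iff₀ hQr (by norm_num), hQe]
      have : (t : ℝ) * d ≤ 2 * P * G := mul_le_mul ht2r hdGr (by positivity) (by positivity)
      nlinarith
    have h3 : 0 ≤ (t : ℝ) * d / Q := by positivity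
    have h4 := Real.mul_le_sin (x := Real.pi * (t * d / Q)) (by positivity) (by
      nlinarith [Real.pi_pos])
    have h5 : 2 / Real.pi * (Real.pi * (t * d / Q)) = 2 * (t * d / Q : ℝ) := by
      field_simp
    rw [h5] at h4
    have h6 : 1 / (G : ℝ) = 4 * (1 / (4 * (G : ℝ))) := by field_simp
    refine le_trans ?_ (le_abs_self _)
    rw [h6]
    linarith
  -- the mean square bound
  have hsum : ∀ k, 1 ≤ k → k ≤ D →
      ∑ t ∈ Finset.range Q, ∫ y, ‖hh T g (ζ ^ t) M k y‖ ^ 2 ∂μ ≤ Q / M := by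
    intro k hk1 hkD
    have hInt : ∀ t : ℕ, Integrable (fun y => ‖hh T g (ζ ^ t) M k y‖ ^ 2) μ := fun t =>
      integrable_of_cont ((hh_continuous hT hg _ _ _).norm.pow 2)
    rw [← integral_finsetSum _ fun t _ => hInt t]
    have hpt : ∀ y, ∑ t ∈ Finset.range Q, ‖hh T g (ζ ^ t) M k y‖ ^ 2 ≤ Q / M := by
      intro y
      have e1 : ∀ t, ‖hh T g (ζ ^ t) M k y‖ ^ 2 = 1 / (M : ℝ) ^ 2 *
          ‖∑ n ∈ Finset.range M, ((g (T^[n] y) : ℝ) : ℂ) * ζ ^ (t * (k * n))‖ ^ 2 := by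
        intro t
        rw [hh, norm_mul, mul_pow, norm_div, norm_one, Complex.norm_natCast, div_pow, one_pow]
        simp only [← pow_mul]
      simp only [e1]
      rw [← Finset.mul_sum, parseval hQpos hζ (fun n => g (T^[n] y)) hk1]
      · have h1 : ∑ n ∈ Finset.range M, g (T^[n] y) ^ 2 ≤ M := by
          have : ∀ n ∈ Finset.range M, g (T^[n] y) ^ 2 ≤ 1 := fun n _ => by
            rw [sq_le_one_iff_abs_le_one]; exact hg1 _
          refine (Finset.sum_le_sum this).trans ?_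
          simp
        calc 1 / (M : ℝ) ^ 2 * ((Q : ℝ) * ∑ n ∈ Finset.range M, g (T^[n] y) ^ 2)
            ≤ 1 / (M : ℝ) ^ 2 * ((Q : ℝ) * M) := by
              apply mul_le_mul_of_nonneg_left _ (by positivity)
              exact mul_le_mul_of_nonneg_left h1 hQr.le
          _ = (Q : ℝ) / M := by field_simp
      · calc k * M ≤ (D + 1) * M := Nat.mul_le_mul_right _ (by omega)
          _ = P := rfl
          _ ≤ Q := by rw [hQ]; nlinarith
    calc ∫ y, ∑ t ∈ Finset.range Q, ‖hh T g (ζ ^ t) M k y‖ ^ 2 ∂μ ≤ ∫ _y, (Q / M : ℝ) ∂μ := by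
          refine integral_mono (integrable_of_cont ?_) (integrable_const _) hpt
          exact continuous_finsetSum _ fun t _ => (hh_continuous hT hg _ _ _).norm.pow 2
      _ = (Q : ℝ) / M := by simp
  by_contra hcon
  push Not at hcon
  have hbad : ∀ t ∈ Finset.Icc P (2 * P),
      b ≤ ∑ k ∈ Finset.Icc 1 D, ∫ y, ‖hh T g (ζ ^ t) M k y‖ ^ 2 ∂μ := by
    intro t ht
    obtain ⟨k, hk1, hk2, hk3⟩ := hcon (ζ ^ t) (by rw [norm_pow, hζ1, one_pow]) (hsep t ht) M hM
    refine hk3.le.trans ?_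
    exact Finset.single_le_sum (f := fun k => ∫ y, ‖hh T g (ζ ^ t) M k y‖ ^ 2 ∂μ)
      (fun k _ => integral_nonneg fun y => by positivity) (Finset.mem_Icc.2 ⟨hk1, hk2⟩)
  have h1 : ((P + 1 : ℕ) : ℝ) * b ≤ ∑ t ∈ Finset.Icc P (2 * P),
      ∑ k ∈ Finset.Icc 1 D, ∫ y, ‖hh T g (ζ ^ t) M k y‖ ^ 2 ∂μ := by
    have := Finset.sum_le_sum hbad
    rw [Finset.sum_const, Nat.card_Icc, nsmul_eq_mul] at this
    rw [show 2 * P + 1 - P = P + 1 by omega] at this
    exact this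
  have h2 : ∑ t ∈ Finset.Icc P (2 * P), ∑ k ∈ Finset.Icc 1 D,
      ∫ y, ‖hh T g (ζ ^ t) M k y‖ ^ 2 ∂μ ≤
      ∑ t ∈ Finset.range Q, ∑ k ∈ Finset.Icc 1 D, ∫ y, ‖hh T g (ζ ^ t) M k y‖ ^ 2 ∂μ := by
    apply Finset.sum_le_sum_of_subset_of_nonneg
    · intro t ht
      have := (Finset.mem_Icc.1 ht).2
      rw [Finset.mem_range]
      have : 4 * P ≤ Q := by rw [hQ]; nlinarith
      omega
    · intro t _ _
      exact Finset.sum_nonneg fun k _ => integral_nonneg fun y => by positivity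
  have h3 : ∑ t ∈ Finset.range Q, ∑ k ∈ Finset.Icc 1 D,
      ∫ y, ‖hh T g (ζ ^ t) M k y‖ ^ 2 ∂μ ≤ D * (Q / M) := by
    rw [Finset.sum_comm]
    have : ∀ k ∈ Finset.Icc 1 D, ∑ t ∈ Finset.range Q, ∫ y, ‖hh T g (ζ ^ t) M k y‖ ^ 2 ∂μ ≤
        Q / M := fun k hk => hsum k (Finset.mem_Icc.1 hk).1 (Finset.mem_Icc.1 hk).2
    refine (Finset.sum_le_sum this).trans ?_
    rw [Finset.sum_const, Nat.card_Icc, nsmul_eq_mul, Nat.add_sub_cancel]
  have h4 : (D : ℝ) * (Q / M) = (4 * (G : ℝ) * D / M) * P := by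
    rw [hQ]; push_cast; field_simp
  have hPr : (0 : ℝ) < P := by exact_mod_cast hPpos
  have h5 : (4 * (G : ℝ) * D / M) * P ≤ b * P := mul_le_mul_of_nonneg_right hMb hPr.le
  push_cast at h1
  nlinarith

/-- the square of the Dirichlet kernel away from one -/
lemma kernel_off {w : ℂ} (hw : ‖w‖ = 1) {ρ : ℝ} (hρ : 0 < ρ) (h : ρ ≤ ‖w - 1‖) (D : ℕ) :
    ‖∑ j ∈ Finset.range D, w ^ j‖ ^ 2 ≤ 4 / ρ ^ 2 := by
  have h1 : ‖(w - 1) * ∑ j ∈ Finset.range D, w ^ j‖ ≤ 2 := by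
    rw [mul_geom_sum]
    refine (norm_sub_le _ _).trans ?_
    rw [norm_pow, hw, one_pow, norm_one]
    norm_num
  rw [norm_mul] at h1
  have h2 : ρ * ‖∑ j ∈ Finset.range D, w ^ j‖ ≤ 2 :=
    (mul_le_mul_of_nonneg_right h (norm_nonneg _)).trans h1
  rw [le_div_iff₀ (by positivity)]
  have h3 : 0 ≤ ρ * ‖∑ j ∈ Finset.range D, w ^ j‖ := by positivity
  nlinarith

/-- uniform smallness of the twisted averages -/
lemma twisted {T : X → X} (hT : Continuous T) {μ : Measure X} [IsProbabilityMeasure μ]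
    (huniq : ∀ ν : Measure X, IsProbabilityMeasure ν → MeasurePreserving T ν ν → ν = μ)
    {g : X → ℝ} (hg : Continuous g) (hg1 : ∀ x, |g x| ≤ 1) {z : ℂ} (hz : ‖z‖ = 1)
    {M k : ℕ} (hM : 0 < M) {ε : ℝ} (hε : 0 < ε)
    (hb : ∫ y, ‖hh T g z M k y‖ ^ 2 ∂μ ≤ ε ^ 2 / 8) :
    ∃ L0 : ℕ, ∀ L ≥ L0, ∀ y, ‖1 / (L : ℂ) * ∑ n ∈ Finset.range L,
      (g (T^[n] y) : ℂ) * z ^ (k * n)‖ ≤ ε := by
  have hc : Continuous fun y => ‖hh T g z M k y‖ ^ 2 := (hh_continuous hT hg z M k).norm.pow 2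
  obtain ⟨L1, hL1⟩ := Pool.Agent.R203.UE.unif hT huniq hc (ε := ε ^ 2 / 8) (by positivity)
  obtain ⟨L2, hL2⟩ := exists_nat_gt (4 * (M : ℝ) / ε)
  refine ⟨max L1 (L2 + 1), fun L hL y => ?_⟩
  have hLpos : 0 < L := by
    have := (le_max_right L1 (L2 + 1)).trans hL
    omega
  have hLr : (0 : ℝ) < L := by exact_mod_cast hLpos
  have h1 := hL1 L ((le_max_left _ _).trans hL) y
  set a : ℕ → ℂ := fun n => (g (T^[n] y) : ℂ) * z ^ (k * n) with ha
  have ha1 : ∀ n, ‖a n‖ ≤ 1 := by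
    intro n
    rw [ha]
    simp only [norm_mul, norm_pow, hz, one_pow, mul_one, Complex.norm_real, Real.norm_eq_abs]
    exact hg1 _
  have h2 := smoothing a ha1 hM L
  have h3 : ∀ j, ‖1 / (M : ℂ) * ∑ n ∈ Finset.range M, a (j + n)‖ = ‖hh T g z M k (T^[j] y)‖ := by
    intro j
    have e : 1 / (M : ℂ) * ∑ n ∈ Finset.range M, a (j + n) = z ^ (k * j) *
        hh T g z M k (T^[j] y) := by
      rw [hh, Finset.mul_sum, Finset.mul_sum, Finset.mul_sum]
      refine Finset.sum_congr rfl fun n _ => ?_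
      simp only [ha]
      rw [mul_add, pow_add, add_comm j n, Function.iterate_add_apply]
      ring
    rw [e, norm_mul, norm_pow, hz, one_pow, one_mul]
  simp only [h3] at h2
  have h4 : ∀ v : ℝ, v ≤ ε / 4 + v ^ 2 / ε := by
    intro v
    have : 0 ≤ (v - ε / 2) ^ 2 / ε := by positivity
    have e : (v - ε / 2) ^ 2 / ε = v ^ 2 / ε - v + ε / 4 := by field_simp; ring
    linarith
  have h5 : ∑ j ∈ Finset.range L, ‖hh T g z M k (T^[j] y)‖ ≤
      L * (ε / 4) + (∑ j ∈ Finset.range L, ‖hh T g z M k (T^[j] y)‖ ^ 2) / ε := by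
    refine (Finset.sum_le_sum fun j _ => h4 _).trans ?_
    rw [Finset.sum_add_distrib, Finset.sum_const, Finset.card_range, nsmul_eq_mul,
      Finset.sum_div]
  have h6 : ∑ j ∈ Finset.range L, ‖hh T g z M k (T^[j] y)‖ ^ 2 ≤ L * (ε ^ 2 / 4) := by
    have := (abs_lt.1 h1).2
    have h7 : 1 / (L : ℝ) * ∑ j ∈ Finset.range L, ‖hh T g z M k (T^[j] y)‖ ^ 2 ≤ ε ^ 2 / 4 := by
      linarith
    rw [one_div, inv_mul_le_iff₀ hLr] at h7
    exact h7
  have h7 : (∑ j ∈ Finset.range L, ‖hh T g z M k (T^[j] y)‖ ^ 2) / ε ≤ L * (ε / 4) := by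
    rw [div_le_iff₀ hε]
    calc _ ≤ L * (ε ^ 2 / 4) := h6
      _ = L * (ε / 4) * ε := by ring
  have h8 : 2 * (M : ℝ) ≤ L * (ε / 2) := by
    have h9 : (L2 : ℝ) ≤ L := by
      have := (le_max_right L1 (L2 + 1)).trans hL
      exact_mod_cast (Nat.le_succ _).trans this
    have h10 : 4 * (M : ℝ) / ε < L := hL2.trans_le h9
    rw [div_lt_iff₀ hε] at h10
    linarith
  rw [norm_mul, norm_div, norm_one, Complex.norm_natCast, one_div, inv_mul_le_iff₀ hLr]
  linarith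

/-- uniform positivity along the Bohr set `{n : ‖z ^ n - 1‖ < ρ}` -/
lemma bohr_positive {T : X → X} (hT : Continuous T) {μ : Measure X} [IsProbabilityMeasure μ]
    (huniq : ∀ ν : Measure X, IsProbabilityMeasure ν → MeasurePreserving T ν ν → ν = μ)
    {g : X → ℝ} (hg : Continuous g) (hg0 : ∀ x, 0 ≤ g x) (hg1 : ∀ x, g x ≤ 1)
    (hc : 0 < ∫ x, g x ∂μ) {G : ℕ} (hG : 0 < G) :
    ∃ z : ℂ, ‖z‖ = 1 ∧ (∀ d, 1 ≤ d → d < G → 1 / (G : ℝ) ≤ ‖z ^ d - 1‖) ∧
      ∃ L : ℕ, ∀ y, ∃ n < L, 0 < g (T^[n] y) ∧ ‖z ^ n - 1‖ < 1 / (2 * G : ℝ) := by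
  set c := ∫ x, g x ∂μ with hcdef
  set D : ℕ := 32 * G ^ 2 with hD
  have hDpos : 0 < D := by positivity
  have hDr : (0 : ℝ) < D := by exact_mod_cast hDpos
  have hGr : (0 : ℝ) < G := by exact_mod_cast hG
  set ε : ℝ := c / (8 * D) with hε
  have hεpos : 0 < ε := by positivity
  have hga : ∀ x, |g x| ≤ 1 := fun x => abs_le.2 ⟨by linarith [hg0 x], hg1 x⟩
  obtain ⟨z, hz, hsep, M, hM, hzM⟩ := exists_z hT hg hga hG D (μ := μ) (b := ε ^ 2 / 8)
    (by positivity)
  refine ⟨z, hz, hsep, ?_⟩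
  have h1 : ∀ k : ℕ, ∃ L0 : ℕ, 1 ≤ k → k ≤ D → ∀ L ≥ L0, ∀ y, ‖1 / (L : ℂ) *
      ∑ n ∈ Finset.range L, (g (T^[n] y) : ℂ) * z ^ (k * n)‖ ≤ ε := by
    intro k
    by_cases hk : 1 ≤ k ∧ k ≤ D
    · obtain ⟨L0, hL0⟩ := twisted hT huniq hg hga hz hM hεpos (hzM k hk.1 hk.2)
      exact ⟨L0, fun _ _ => hL0⟩
    · exact ⟨0, fun h h' => absurd ⟨h, h'⟩ hk⟩
  choose L0 hL0 using h1
  obtain ⟨L1, hL1⟩ := Pool.Agent.R203.UE.unif hT huniq hg (ε := c / 2) (by positivity)
  set L := (Finset.range (D + 1)).sup L0 + L1 + 1 with hL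
  have hLpos : 0 < L := by omega
  have hLr : (0 : ℝ) < L := by exact_mod_cast hLpos
  have hLc : (L : ℂ) ≠ 0 := by exact_mod_cast hLpos.ne'
  have hLk : ∀ k, 1 ≤ k → k ≤ D → ∀ y, ‖1 / (L : ℂ) *
      ∑ n ∈ Finset.range L, (g (T^[n] y) : ℂ) * z ^ (k * n)‖ ≤ ε := by
    intro k h1 h2
    refine hL0 k h1 h2 L ?_
    have : L0 k ≤ (Finset.range (D + 1)).sup L0 :=
      Finset.le_sup (Finset.mem_range.2 (by omega))
    omega
  refine ⟨L, fun y => ?_⟩
  by_contra hcon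
  push Not at hcon
  -- the mean of g
  set A : ℝ := 1 / (L : ℝ) * ∑ n ∈ Finset.range L, g (T^[n] y) with hA
  have hA1 : c / 2 < A := by
    have := (abs_lt.1 (hL1 L (by omega) y)).1
    linarith
  have hzn : ∀ n, ‖z ^ n‖ = 1 := fun n => by rw [norm_pow, hz, one_pow]
  -- upper bound
  have hup : 1 / (L : ℝ) * ∑ n ∈ Finset.range L, g (T^[n] y) *
      ‖∑ j ∈ Finset.range D, (z ^ n) ^ j‖ ^ 2 ≤ (D / 2) * A := by
    have : ∀ n ∈ Finset.range L, g (T^[n] y) * ‖∑ j ∈ Finset.range D, (z ^ n) ^ j‖ ^ 2 ≤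
        g (T^[n] y) * (D / 2) := by
      intro n hn
      rcases (hg0 (T^[n] y)).eq_or_lt with h | h
      · rw [← h, zero_mul, zero_mul]
      · apply mul_le_mul_of_nonneg_left _ h.le
        have h2 := kernel_off (hzn n) (ρ := 1 / (2 * G : ℝ)) (by positivity)
          (hcon n (Finset.mem_range.1 hn) h) D
        refine h2.trans (le_of_eq ?_)
        rw [hD]
        push_cast
        field_simp
        norm_num
    calc 1 / (L : ℝ) * ∑ n ∈ Finset.range L, g (T^[n] y) *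
          ‖∑ j ∈ Finset.range D, (z ^ n) ^ j‖ ^ 2
        ≤ 1 / (L : ℝ) * ∑ n ∈ Finset.range L, g (T^[n] y) * (D / 2) :=
          mul_le_mul_of_nonneg_left (Finset.sum_le_sum this) (by positivity)
      _ = (D / 2) * A := by rw [hA, ← Finset.sum_mul]; ring
  -- expansion
  let B : ℕ → ℕ → ℂ := fun j l => 1 / (L : ℂ) * ∑ n ∈ Finset.range L, (g (T^[n] y) : ℂ) *
    ((z ^ n) ^ j * (starRingEnd ℂ) ((z ^ n) ^ l))
  have hexp : ((1 / (L : ℝ) * ∑ n ∈ Finset.range L, g (T^[n] y) *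
      ‖∑ j ∈ Finset.range D, (z ^ n) ^ j‖ ^ 2 : ℝ) : ℂ) =
      ∑ j ∈ Finset.range D, ∑ l ∈ Finset.range D, B j l := by
    push_cast
    have e1 : ∀ n, ((‖∑ j ∈ Finset.range D, (z ^ n) ^ j‖ : ℂ)) ^ 2 =
        ∑ j ∈ Finset.range D, ∑ l ∈ Finset.range D,
          (z ^ n) ^ j * (starRingEnd ℂ) ((z ^ n) ^ l) := by
      intro n
      rw [← Complex.mul_conj', map_sum, Finset.sum_mul_sum]
    simp only [e1, B, Finset.mul_sum]
    rw [Finset.sum_comm]
    refine Finset.sum_congr rfl fun j _ => ?_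
    rw [Finset.sum_comm]
  have hBdiag : ∀ j, B j j = (A : ℂ) := by
    intro j
    simp only [B]
    have : ∀ n, (z ^ n) ^ j * (starRingEnd ℂ) ((z ^ n) ^ j) = 1 := by
      intro n
      rw [Complex.mul_conj', norm_pow, hzn]
      simp
    simp only [this, mul_one, hA]
    push_cast
    ring
  have hBgt : ∀ j l, l < j → j ≤ D → ‖B j l‖ ≤ ε := by
    intro j l hlj hjD
    have e : B j l = 1 / (L : ℂ) *
        ∑ n ∈ Finset.range L, (g (T^[n] y) : ℂ) * z ^ ((j - l) * n) := by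
      simp only [B]
      congr 1
      refine Finset.sum_congr rfl fun n _ => ?_
      congr 1
      have h1 : (z ^ n) ^ l * (starRingEnd ℂ) ((z ^ n) ^ l) = 1 := by
        rw [Complex.mul_conj', norm_pow, hzn]
        simp
      obtain ⟨m, rfl⟩ := Nat.exists_eq_add_of_lt hlj
      rw [show l + m + 1 - l = m + 1 by omega, show l + m + 1 = (m + 1) + l by ring, pow_add,
        mul_assoc, h1, mul_one, ← pow_mul, mul_comm n]
    rw [e]
    exact hLk _ (by omega) (by omega) y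
  have hBlt : ∀ j l, j < l → l ≤ D → ‖B j l‖ ≤ ε := by
    intro j l hjl hl
    have e : B j l = (starRingEnd ℂ) (B l j) := by
      simp only [B, map_mul, map_sum, map_div₀, map_one, Complex.conj_natCast,
        Complex.conj_ofReal, Complex.conj_conj]
      congr 1
      refine Finset.sum_congr rfl fun n _ => ?_
      ring
    rw [e, Complex.norm_conj]
    exact hBgt l j hjl hl
  have hdiff : ‖∑ j ∈ Finset.range D, ∑ l ∈ Finset.range D, B j l - (D : ℂ) * (A : ℂ)‖ ≤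
      D * (D * ε) := by
    have e : ∑ j ∈ Finset.range D, ∑ l ∈ Finset.range D, B j l - (D : ℂ) * (A : ℂ) =
        ∑ j ∈ Finset.range D, ∑ l ∈ Finset.range D, (B j l - if l = j then (A : ℂ) else 0) := by
      simp only [Finset.sum_sub_distrib]
      congr 1
      have : ∀ j ∈ Finset.range D, ∑ l ∈ Finset.range D, (if l = j then (A : ℂ) else 0) = A := by
        intro j hj
        rw [Finset.sum_ite_eq' (Finset.range D) j, if_pos hj]
      rw [Finset.sum_congr rfl this, Finset.sum_const, Finset.card_range, nsmul_eq_mul]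
    rw [e]
    refine (norm_sum_le _ _).trans ?_
    have h2 : ∀ j ∈ Finset.range D,
        ‖∑ l ∈ Finset.range D, (B j l - if l = j then (A : ℂ) else 0)‖ ≤ D * ε := by
      intro j hj
      refine (norm_sum_le _ _).trans ?_
      have h3 : ∀ l ∈ Finset.range D, ‖B j l - if l = j then (A : ℂ) else 0‖ ≤ ε := by
        intro l hl
        rcases lt_trichotomy l j with h | h | h
        · rw [if_neg h.ne, sub_zero]
          exact hBgt j l h (Finset.mem_range.1 hj).le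
        · rw [if_pos h, h, hBdiag, sub_self, norm_zero]
          exact hεpos.le
        · rw [if_neg h.ne', sub_zero]
          exact hBlt j l h (Finset.mem_range.1 hl).le
      refine (Finset.sum_le_sum h3).trans ?_
      rw [Finset.sum_const, Finset.card_range, nsmul_eq_mul]
    refine (Finset.sum_le_sum h2).trans ?_
    rw [Finset.sum_const, Finset.card_range, nsmul_eq_mul]
  rw [← hexp] at hdiff
  have hdiff' : |(1 / (L : ℝ) * ∑ n ∈ Finset.range L, g (T^[n] y) *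
      ‖∑ j ∈ Finset.range D, (z ^ n) ^ j‖ ^ 2) - D * A| ≤ D * (D * ε) := by
    rw [← Real.norm_eq_abs, ← Complex.norm_real]
    refine le_of_eq_of_le ?_ hdiff
    congr 1
    push_cast
    rfl
  have hlow := (abs_le.1 hdiff').1
  have hfin : (D : ℝ) * A / 2 ≤ D * (D * ε) := by linarith
  have h9 : (D : ℝ) * (D * ε) = D * (c / 8) := by
    rw [hε]; field_simp
  rw [h9] at hfin
  nlinarith

end Dyn

/-- the number `0` or `1` -/
noncomputable def bit (c : Bool) : ℂ := if c then 1 else 0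

lemma bit_ne (w : ℂ) : ∃ c : Bool, w ≠ bit c := by
  by_cases h : w = 0
  · exact ⟨true, by rw [h]; simp [bit]⟩
  · exact ⟨false, by simpa [bit] using h⟩

/-- **MP_0c3956_an, Q1: no.** No syndetic subset of `{1, 2, …}` is a weak interpolation set of
order 2 for the class of uniquely ergodic systems. -/
theorem result : ∀ S : Set ℕ, IsSyndetic S → ¬ IsWeakInterpolation.{u} 2 S := by
  classical
  rintro S ⟨G, hGS⟩ hW
  have hG : 0 < G := by
    obtain ⟨i, hi, -⟩ := hGS 1 le_rfl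
    omega
  obtain ⟨f, hf⟩ := exists_rich
  obtain ⟨X, _, _, _, _, T, hT, ⟨μ, ⟨hμ1, hμ2⟩, huniq⟩, x, -, F, hF, hFx⟩ :=
    hW (fun n => if f n then 1 else 0) (fun n _ => by split_ifs <;> norm_num)
  have huniq' : ∀ ν : Measure X, IsProbabilityMeasure ν → MeasurePreserving T ν ν → ν = μ :=
    fun ν h1 h2 => huniq ν ⟨h1, h2⟩
  -- the functions `g_u`
  let g : (Fin G → Bool) → X → ℝ := fun v y =>
    ∏ i : Fin G, min 1 ‖F (T^[(i : ℕ)] y) - bit (v i)‖
  have hgc : ∀ v, Continuous (g v) := fun v =>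
    continuous_finsetProd _ fun i _ =>
      continuous_const.min ((hF.comp (hT.iterate i)).sub continuous_const).norm
  have hg0 : ∀ v y, 0 ≤ g v y := fun v y =>
    Finset.prod_nonneg fun i _ => le_min zero_le_one (norm_nonneg _)
  have hg1 : ∀ v y, g v y ≤ 1 := fun v y =>
    Finset.prod_le_one (fun i _ => le_min zero_le_one (norm_nonneg _)) fun i _ => min_le_left _ _
  have hex : ∃ v, 0 < ∫ y, g v y ∂μ := by
    by_contra hcon
    push Not at hcon
    have h1 : ∫ y, ∑ v, g v y ∂μ ≤ 0 := by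
      rw [integral_finsetSum _ fun v _ => integrable_of_cont (hgc v)]
      exact Finset.sum_nonpos fun v _ => hcon v
    have hpos : ∀ y, 0 < ∑ v, g v y := by
      intro y
      choose v hv using fun i : Fin G => bit_ne (F (T^[(i : ℕ)] y))
      refine Finset.sum_pos' (fun v _ => hg0 v y) ⟨v, Finset.mem_univ _, ?_⟩
      exact Finset.prod_pos fun i _ => lt_min one_pos (norm_pos_iff.2 (sub_ne_zero.2 (hv i)))
    have hcont : Continuous fun y => ∑ v, g v y := continuous_finsetSum _ fun v _ => hgc v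
    have h2 : 0 < ∫ y, ∑ v, g v y ∂μ := by
      rw [integral_pos_iff_support_of_nonneg (fun y => (hpos y).le) (integrable_of_cont hcont)]
      have : Function.support (fun y => ∑ v, g v y) = univ := by
        ext y
        simp only [Function.mem_support, mem_univ, iff_true]
        exact (hpos y).ne'
      rw [this, measure_univ]
      exact one_pos
    linarith
  obtain ⟨v, hv⟩ := hex
  obtain ⟨z, hz, hsep, L, hL⟩ := bohr_positive hT huniq' (hgc v) (hg0 v) (hg1 v) hv hG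
  -- uniqueness of the decomposition
  have huq : ∀ n n' i i' : ℕ, ‖z ^ n - 1‖ < 1 / (2 * G : ℝ) → ‖z ^ n' - 1‖ < 1 / (2 * G : ℝ) →
      i < G → i' < G → n + i = n' + i' → i = i' := by
    have main : ∀ n n' i i' : ℕ, ‖z ^ n - 1‖ < 1 / (2 * G : ℝ) →
        ‖z ^ n' - 1‖ < 1 / (2 * G : ℝ) → i < G → i' < G → n + i = n' + i' → ¬ n < n' := by
      intro n n' i i' h1 h2 hi hi' h hlt
      have h3 := hsep (n' - n) (by omega) (by omega)
      have h4 : ‖z ^ (n' - n) - 1‖ = ‖z ^ n' - z ^ n‖ := by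
        have e : z ^ n' - z ^ n = z ^ n * (z ^ (n' - n) - 1) := by
          rw [mul_sub, ← pow_add, mul_one, Nat.add_sub_cancel' hlt.le]
        rw [e, norm_mul, norm_pow, hz, one_pow, one_mul]
      have h5 : ‖z ^ n' - z ^ n‖ ≤ ‖z ^ n' - 1‖ + ‖z ^ n - 1‖ := by
        have e : z ^ n' - z ^ n = (z ^ n' - 1) - (z ^ n - 1) := by ring
        rw [e]
        exact norm_sub_le _ _
      have h6 : 1 / (2 * G : ℝ) + 1 / (2 * G : ℝ) = 1 / (G : ℝ) := by field_simp; norm_num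
      linarith
    intro n n' i i' h1 h2 hi hi' h
    have h3 := main n n' i i' h1 h2 hi hi' h
    have h4 := main n' n i' i h2 h1 hi' hi h.symm
    omega
  let φ : ℕ → Bool := fun m =>
    if h : ∃ i : Fin G, ∃ n : ℕ, ‖z ^ n - 1‖ < 1 / (2 * G : ℝ) ∧ n + (i : ℕ) = m then
      v h.choose else false
  have hφ : ∀ n, ‖z ^ n - 1‖ < 1 / (2 * G : ℝ) → ∀ i : Fin G, φ (n + i) = v i := by
    intro n hn i
    have h : ∃ i' : Fin G, ∃ n' : ℕ, ‖z ^ n' - 1‖ < 1 / (2 * G : ℝ) ∧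
        n' + (i' : ℕ) = n + (i : ℕ) := ⟨i, n, hn, rfl⟩
    have e1 : φ (n + i) = v h.choose := dif_pos h
    rw [e1]
    obtain ⟨n', hn', he⟩ := h.choose_spec
    have := huq n' n h.choose i hn' hn h.choose.2 i.2 he
    rw [Fin.ext this]
  obtain ⟨a, ha1, ha⟩ := hf (L + G) φ
  obtain ⟨n, hnL, hgn, hn⟩ := hL (T^[a] x)
  obtain ⟨i, hiG, hiS⟩ := hGS (a + n) (by omega)
  have h1 := hFx (a + n + i) hiS
  have h2 : f (a + n + i) = v ⟨i, hiG⟩ := by
    rw [add_assoc, ha (n + i) (by omega)]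
    exact hφ n hn ⟨i, hiG⟩
  rw [h2] at h1
  have h3 : T^[i] (T^[n] (T^[a] x)) = T^[a + n + i] x := by
    rw [← Function.iterate_add_apply, ← Function.iterate_add_apply,
      show i + n + a = a + n + i by ring]
  have h4 : g v (T^[n] (T^[a] x)) = 0 := by
    refine Finset.prod_eq_zero (Finset.mem_univ ⟨i, hiG⟩) ?_
    rw [h3, h1]
    simp [bit]
  linarith

end Pool.Agent.Results.MP_0c3956_an.NoSyndetic
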